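import Pool.Agent.TH84.HC.Cover
import Pool.Agent.W677.Summand3

set_option autoImplicit false

/-!
# Convex bodies whose normal cones, restricted to a subspace, are small
-/

open Finset

namespace Pool.Agent.Helper272_RF

open Pool.Agent.PZ871 (E)
open Pool.Agent.TH84.HC (CoveredBy sep_ray extreme_dom cover_of_illum)

/-- `K` is covered by at most `N` translates of its interior. -/
def Cov {d : ℕ} (N : ℕ) (K : Set (E d)) : Prop :=
  ∃ T : Finset (E d), T.card ≤ N ∧ K ⊆ ⋃ t ∈ T, (fun x => t + x) '' interior K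

variable {d k e : ℕ}

/-- a uniform gain -/
theorem slack {Z : Set (E k)} (hZ : IsCompact Z) (T : Finset (E k))
    (hT : Z ⊆ ⋃ t ∈ T, (fun x => t + x) '' interior Z) :
    ∃ δ : ℝ, 0 < δ ∧ ∀ z ∈ Z, ∃ t ∈ T, ∀ a : E k, ‖a‖ < δ → z - t + a ∈ Z := by
  obtain ⟨δ, hδ, h⟩ := lebesgue_number_lemma_of_metric (c := fun t : T => (fun x => (t : E k) + x) '' interior Z)
    hZ (fun t => (isOpenMap_add_left (t : E k)) _ isOpen_interior) (by
      intro z hz
      obtain ⟨t, ht, h⟩ := Set.mem_iUnion₂.1 (hT hz)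
      exact Set.mem_iUnion.2 ⟨⟨t, ht⟩, h⟩)
  refine ⟨δ, hδ, fun z hz => ?_⟩
  obtain ⟨⟨t, ht⟩, h1⟩ := h z hz
  refine ⟨t, ht, fun a ha => ?_⟩
  have h2 : z + a ∈ Metric.ball z δ := by
    rw [Metric.mem_ball, dist_eq_norm]
    simpa using ha
  obtain ⟨y, hy, h3⟩ := h1 h2
  have h4 : z - t + a = y := by
    have h5 : t + y = z + a := h3
    have : y = z + a - t := by rw [← h5]; abel
    rw [this]; abel
  rw [h4]
  exact interior_subset hy

/-- The main estimate. `j` is an injective linear map of `ℝ^k` into `ℝ^d`, and `q` is a linear map of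
`ℝ^d` onto `ℝ^e` whose kernel is the image of `j`. -/
theorem main (j : E k →L[ℝ] E d) (q : E d →L[ℝ] E e) (hj : Function.Injective j)
    (hq : Function.Surjective q) (hker : ∀ x, q x = 0 → ∃ w, j w = x)
    {K : Set (E d)} (hK : Convex ℝ K) (hc : IsCompact K) (hi : (interior K).Nonempty)
    (T : Finset (E k)) {δ : ℝ} (hδ : 0 < δ)
    (hT : ∀ v ∈ Set.extremePoints ℝ K, ∃ t ∈ T, ∀ f : E d →L[ℝ] ℝ, (∀ y ∈ K, f y ≤ f v) →
      ∀ a : E k, ‖a‖ < δ → f (j a) ≤ f (j t))
    {M : ℕ} (hQ : Cov M (q '' K)) : Cov (T.card * M) K := by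
  classical
  obtain ⟨S, hSM, hS⟩ := hQ
  obtain ⟨ι₀, hι₀⟩ := LinearMap.exists_rightInverse_of_surjective (q : E d →ₗ[ℝ] E e)
    (LinearMap.range_eq_top.2 hq)
  obtain ⟨ρ₀, hρ₀⟩ := LinearMap.exists_leftInverse_of_injective (j : E k →ₗ[ℝ] E d)
    (LinearMap.ker_eq_bot.2 hj)
  let ι : E e →L[ℝ] E d := LinearMap.toContinuousLinearMap ι₀
  let ρ : E d →L[ℝ] E k := LinearMap.toContinuousLinearMap ρ₀
  have hι : ∀ y, q (ι y) = y := fun y => by
    exact LinearMap.congr_fun hι₀ y
  have hρ : ∀ w, ρ (j w) = w := fun w => by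
    exact LinearMap.congr_fun hρ₀ w
  let r : E d →L[ℝ] E k := ρ.comp (ContinuousLinearMap.id ℝ (E d) - ι.comp q)
  have hr : ∀ x, r x = ρ (x - ι (q x)) := fun x => rfl
  have hdec : ∀ x, x = ι (q x) + j (r x) := by
    intro x
    obtain ⟨w, hw⟩ := hker (x - ι (q x)) (by rw [map_sub, hι, sub_self])
    rw [hr, ← hw, hρ, hw]
    abel
  obtain ⟨C, hC⟩ := hc.exists_bound_of_continuousOn (f := r) r.continuous.continuousOn
  have hKne : K.Nonempty := hi.mono interior_subset
  have hC0 : 0 ≤ C := by
    obtain ⟨x, hx⟩ := hKne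
    exact (norm_nonneg _).trans (hC x hx)
  set R : ℝ := (2 * C + 1) / (δ / 2) + 1 with hR
  set U : Finset (E d) := (T ×ˢ S).image (fun p => -(R • j p.1 + ι p.2)) with hU
  have hUcard : U.card ≤ T.card * M := by
    refine card_image_le.trans ?_
    rw [card_product]
    exact Nat.mul_le_mul_left _ hSM
  have hUne : U.Nonempty := by
    obtain ⟨v, hv⟩ := hc.extremePoints_nonempty hKne
    obtain ⟨t, ht, _⟩ := hT v hv
    obtain ⟨s, hs, _⟩ := Set.mem_iUnion₂.1 (hS (Set.mem_image_of_mem q hv.1))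
    exact ⟨_, mem_image.2 ⟨(t, s), mem_product.2 ⟨ht, hs⟩, rfl⟩⟩
  obtain ⟨T', hT', hcov⟩ := cover_of_illum hK hc U hUne (by
    intro x hx
    obtain ⟨v, hv, hdom⟩ := extreme_dom hK hc hi hx
    have hvK : v ∈ K := hv.1
    obtain ⟨t, ht, hft⟩ := hT v hv
    obtain ⟨s, hs, hs'⟩ := Set.mem_iUnion₂.1 (hS (Set.mem_image_of_mem q hvK))
    obtain ⟨a, ha, has⟩ := hs'
    have has' : s + a = q v := has
    refine ⟨-(R • j t + ι s), mem_image.2 ⟨(t, s), mem_product.2 ⟨ht, hs⟩, rfl⟩, hdom _ ?_⟩
    by_contra hcon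
    push Not at hcon
    obtain ⟨f, hf1, hf2, hf3⟩ := sep_ray hK hi hvK _ hcon
    have hjt : ∀ c : E k, ‖c‖ < δ → f (j c) ≤ f (j t) := hft f hf2
    have hjt0 : 0 ≤ f (j t) := by
      have := hjt 0 (by simpa using hδ)
      simpa using this
    -- points of `K` over the points near `q v - s`
    obtain ⟨ε, hε, hball⟩ := Metric.isOpen_iff.1 isOpen_interior a ha
    have key : ∀ c : E e, ‖c‖ < ε → f (-(R • j t + ι s)) ≤ - f (j t) - f (ι c) := by
      intro c hcε
      have h1 : a + c ∈ q '' K := by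
        apply interior_subset
        apply hball
        rw [Metric.mem_ball, dist_eq_norm]
        simpa using hcε
      obtain ⟨y, hy, hya⟩ := h1
      have hqy : q y = q v - s + c := by
        rw [hya, ← has']; abel
      have h2 := hf2 y hy
      have h3 : f y = f (ι (q y)) + f (j (r y)) := by rw [← map_add, ← hdec]
      have h4 : f v = f (ι (q v)) + f (j (r v)) := by rw [← map_add, ← hdec]
      have h5 : f (ι (q y)) = f (ι (q v)) - f (ι s) + f (ι c) := by
        rw [hqy, map_add, map_sub, map_add, map_sub]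
      -- the difference in the direction of the subspace
      set w : E k := r v - r y with hw
      have hwn : ‖w‖ ≤ 2 * C := by
        calc ‖w‖ ≤ ‖r v‖ + ‖r y‖ := norm_sub_le _ _
          _ ≤ 2 * C := by linarith [hC v hvK, hC y hy]
      have h6 : f (j w) ≤ (2 * C + 1) / (δ / 2) * f (j t) := by
        have hpos : 0 < 2 * C + 1 := by linarith
        have h7 := hjt (((δ / 2) / (2 * C + 1)) • w) (by
          rw [norm_smul, Real.norm_of_nonneg (by positivity)]
          calc (δ / 2) / (2 * C + 1) * ‖w‖ ≤ (δ / 2) / (2 * C + 1) * (2 * C + 1) := by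
                apply mul_le_mul_of_nonneg_left _ (by positivity)
                linarith
            _ = δ / 2 := by field_simp
            _ < δ := by linarith)
        rw [map_smul, map_smul, smul_eq_mul] at h7
        rw [div_mul_eq_mul_div, le_div_iff₀ (by positivity)]
        rw [div_mul_eq_mul_div, div_le_iff₀ hpos] at h7
        linarith
      have h8 : f (j w) = f (j (r v)) - f (j (r y)) := by rw [hw, map_sub, map_sub]
      rw [map_neg, map_add, map_smul, smul_eq_mul, hR]
      have h9 : - f (ι s) ≤ - f (ι c) + f (j w) := by rw [h8]; linarith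
      linarith
    rcases lt_or_eq_of_le hjt0 with h0 | h0
    · have h1 := key 0 (by simpa using hε)
      simp only [map_zero, sub_zero] at h1
      linarith
    · -- `f` vanishes on the subspace
      have hfj : ∀ w : E k, f (j w) ≤ 0 := by
        intro w
        by_cases hw : w = 0
        · simp [hw]
        · have hwn : 0 < ‖w‖ := norm_pos_iff.2 hw
          have h1 := hjt ((δ / 2 / ‖w‖) • w) (by
            rw [norm_smul, Real.norm_of_nonneg (by positivity), div_mul_cancel₀ _ hwn.ne']
            linarith)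
          rw [map_smul, map_smul, smul_eq_mul, ← h0] at h1
          have h2 : 0 < δ / 2 / ‖w‖ := by positivity
          by_contra hcon2
          push Not at hcon2
          have := mul_pos h2 hcon2
          linarith
      have hfj0 : ∀ w : E k, f (j w) = 0 := by
        intro w
        have h1 := hfj (-w)
        rw [map_neg, map_neg] at h1
        linarith [hfj w]
      obtain ⟨c, hcne⟩ : ∃ c : E e, f (ι c) ≠ 0 := by
        by_contra hall
        push Not at hall
        obtain ⟨z, hz⟩ := hi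
        have h2 := hf1 z hz
        have h3 : ∀ y, f y = 0 := fun y => by
          rw [hdec y, map_add, hall, hfj0, add_zero]
        rw [h3, h3] at h2
        exact lt_irrefl _ h2
      have hc0 : c ≠ 0 := by
        rintro rfl
        exact hcne (by simp)
      have hcn : 0 < ‖c‖ := norm_pos_iff.2 hc0
      obtain ⟨σ, hσ, hσ1⟩ : ∃ σ : ℝ, |σ| = 1 ∧ 0 < σ * f (ι c) := by
        rcases lt_or_gt_of_ne hcne with h | h
        · exact ⟨-1, by simp, by linarith⟩
        · exact ⟨1, by simp, by linarith⟩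
      have h1 := key ((ε / 2 / ‖c‖ * σ) • c) (by
        rw [norm_smul, norm_mul, Real.norm_of_nonneg (by positivity), Real.norm_eq_abs, hσ, mul_one,
          div_mul_cancel₀ _ hcn.ne']
        linarith)
      rw [map_smul, map_smul, smul_eq_mul, mul_assoc, ← h0] at h1
      have h2 : 0 < ε / 2 / ‖c‖ := by positivity
      have := mul_pos h2 hσ1
      linarith)
  refine ⟨T', ?_, hcov⟩
  have h1 : (T'.card : ℝ) ≤ (T.card * M : ℕ) := hT'.trans (by exact_mod_cast hUcard)
  exact_mod_cast h1

end Pool.Agent.Helper272_RF
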