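import Pool.Agent.Helper272_RF.A

set_option autoImplicit false

/-!
# Convex bodies whose normal cones, restricted to a subspace, are small: consequences
-/

open Finset

namespace Pool.Agent.Helper272_RF

open Pool.Agent.PZ871 (E)

variable {d k e : ℕ}

/-- a convex body -/
def Body (K : Set (E d)) : Prop := Convex ℝ K ∧ IsCompact K ∧ (interior K).Nonempty

/-- restricted to the image of `j`, the normal cone of `K` at every extreme point is contained in a
normal cone of `Z` -/
def Ref (K : Set (E d)) (j : E k →ₗ[ℝ] E d) (Z : Set (E k)) : Prop :=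
  ∀ x ∈ Set.extremePoints ℝ K, ∃ z ∈ Z, ∀ f : E d →L[ℝ] ℝ, (∀ y ∈ K, f y ≤ f x) →
    ∀ w ∈ Z, f (j w) ≤ f (j z)

theorem Cov.mono {K : Set (E d)} {N M : ℕ} (h : Cov N K) (hNM : N ≤ M) : Cov M K := by
  obtain ⟨T, hT, h1⟩ := h
  exact ⟨T, hT.trans hNM, h1⟩

theorem of_ref (j : E k →ₗ[ℝ] E d) (q : E d →ₗ[ℝ] E e) (hj : Function.Injective j)
    (hq : Function.Surjective q) (hker : ∀ x, q x = 0 ↔ ∃ w, j w = x)
    {K : Set (E d)} (hK : Body K) {Z : Set (E k)} (hZ : IsCompact Z) (h : Ref K j Z)
    {N M : ℕ} (hN : Cov N Z) (hM : Cov M (q '' K)) : Cov (N * M) K := by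
  obtain ⟨T, hTN, hT⟩ := hN
  obtain ⟨δ, hδ, hs⟩ := slack hZ T hT
  have := main (LinearMap.toContinuousLinearMap j) (LinearMap.toContinuousLinearMap q) hj hq
    (fun x hx => (hker x).1 hx) hK.1 hK.2.1 hK.2.2 T hδ (by
      intro v hv
      obtain ⟨z, hz, hf⟩ := h v hv
      obtain ⟨t, ht, ha⟩ := hs z hz
      refine ⟨t, ht, fun f hfv a hna => ?_⟩
      have h1 := hf f hfv _ (ha a hna)
      have h2 : f (j (z - t + a)) = f (j z) - f (j t) + f (j a) := by
        rw [map_add, map_sub, map_add, map_sub]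
      rw [h2] at h1
      show f (j a) ≤ f (j t)
      linarith) (M := M) hM
  exact this.mono (Nat.mul_le_mul_right _ hTN)

theorem exists_q (j : E k →ₗ[ℝ] E d) (hj : Function.Injective j) (hkd : k + e = d) :
    ∃ q : E d →ₗ[ℝ] E e, Function.Surjective q ∧ ∀ x, q x = 0 ↔ ∃ w, j w = x := by
  obtain ⟨π, hπ, h⟩ := Pool.Agent.W677.Summand.quot (LinearMap.range j) (m := e) (by
    rw [LinearMap.finrank_range_of_inj hj, finrank_euclideanSpace, Fintype.card_fin]
    exact hkd)
  exact ⟨π, hπ, fun x => (h x).trans LinearMap.mem_range⟩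

theorem body_image {K : Set (E d)} (hK : Body K) (q : E d →ₗ[ℝ] E e) (hq : Function.Surjective q) :
    Body (q '' K) := by
  refine ⟨hK.1.linear_image q, ?_, ?_⟩
  · exact hK.2.1.image (LinearMap.toContinuousLinearMap q).continuous
  · obtain ⟨x, hx⟩ := hK.2.2
    have ho : IsOpenMap q := (LinearMap.toContinuousLinearMap q).isOpenMap hq
    exact ⟨q x, ho.image_interior_subset K (Set.mem_image_of_mem q hx)⟩

theorem small {K : Set (E d)} (hd : d ≤ 2) (hK : Body K) : Cov (2 ^ d) K :=
  Pool.Agent.W677.Summand.body_le_two hd hK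

theorem dim_le (j : E k →ₗ[ℝ] E d) (hj : Function.Injective j) : k ≤ d := by
  have := LinearMap.finrank_le_finrank_of_injective hj
  rwa [finrank_euclideanSpace, finrank_euclideanSpace, Fintype.card_fin, Fintype.card_fin] at this

/-- codimension at most two -/
theorem codim_two (j : E k →ₗ[ℝ] E d) (hj : Function.Injective j) {K : Set (E d)} (hK : Body K)
    {Z : Set (E k)} (hZ : IsCompact Z) (h : Ref K j Z) (hdk : d ≤ k + 2) (hN : Cov (2 ^ k) Z) :
    Cov (2 ^ d) K := by
  have hkd := dim_le j hj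
  obtain ⟨q, hq, hker⟩ := exists_q (e := d - k) j hj (by omega)
  have h1 := of_ref j q hj hq hker hK hZ h hN (small (by omega) (body_image hK q hq))
  rwa [← pow_add, show k + (d - k) = d by omega] at h1

/-- a counterexample of least dimension is not refined in this sense -/
theorem least (j : E k →ₗ[ℝ] E d) (hj : Function.Injective j) {K : Set (E d)} (hK : Body K)
    {Z : Set (E k)} (hZ : Body Z) (h : Ref K j Z) (h0 : 0 < k) (hkd : k < d)
    (hall : ∀ m < d, ∀ K' : Set (E m), Body K' → Cov (2 ^ m) K') : Cov (2 ^ d) K := by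
  obtain ⟨q, hq, hker⟩ := exists_q (e := d - k) j hj (by omega)
  have h1 := of_ref j q hj hq hker hK hZ.2.1 h (hall k hkd Z hZ)
    (hall (d - k) (by omega) _ (body_image hK q hq))
  rwa [← pow_add, show k + (d - k) = d by omega] at h1

/-- hulls of positive homothets of a lower-dimensional set -/
theorem ref_of_hull {I : Type*} (j : E k →ₗ[ℝ] E d) (Z : Set (E k)) (a : I → E d) (lam : I → ℝ)
    (hlam : ∀ i, 0 < lam i) :
    Ref (convexHull ℝ (⋃ i, (fun z => a i + lam i • j z) '' Z)) j Z := by
  intro x hx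
  have h1 := extremePoints_convexHull_subset hx
  obtain ⟨i, z, hz, hzx⟩ := Set.mem_iUnion.1 h1
  refine ⟨z, hz, fun f hf w hw => ?_⟩
  have h2 := hf (a i + lam i • j w) (subset_convexHull ℝ _ (Set.mem_iUnion.2 ⟨i, w, hw, rfl⟩))
  have hzx' : a i + lam i • j z = x := hzx
  rw [← hzx', map_add, map_add, map_smul, map_smul, smul_eq_mul, smul_eq_mul] at h2
  have h3 : lam i * f (j w) ≤ lam i * f (j z) := by linarith
  exact le_of_mul_le_mul_left h3 (hlam i)

/-- the linear map with the values `b i` at the unit vectors -/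
noncomputable def lin (b : Fin k → E d) : E k →ₗ[ℝ] E d :=
  (Fintype.linearCombination ℝ b).comp (WithLp.linearEquiv 2 ℝ (Fin k → ℝ)).toLinearMap

theorem lin_apply (b : Fin k → E d) (w : E k) : lin b w = ∑ i, w i • b i := by
  simp [lin, Fintype.linearCombination_apply]

theorem lin_inj (b : Fin k → E d) (hb : LinearIndependent ℝ b) : Function.Injective (lin b) := by
  rw [← LinearMap.ker_eq_bot, LinearMap.ker_eq_bot']
  intro w hw
  rw [lin_apply] at hw
  have := Fintype.linearIndependent_iff.1 hb (fun i => w i) hw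
  ext i
  simpa using this i

theorem lin_range (b : Fin k → E d) (x : E d) :
    x ∈ Submodule.span ℝ (Set.range b) ↔ ∃ w, lin b w = x := by
  rw [Submodule.mem_span_range_iff_exists_fun]
  constructor
  · rintro ⟨c, hc⟩
    exact ⟨WithLp.toLp 2 c, by rw [lin_apply]; simpa using hc⟩
  · rintro ⟨w, hw⟩
    exact ⟨fun i => w i, by rw [← hw, lin_apply]⟩

/-- `h` is a belt direction of `K` -/
def Belt (K : Set (E d)) (h : E d) : Prop :=
  ∀ x ∈ Set.extremePoints ℝ K,
    (∀ f : E d →L[ℝ] ℝ, (∀ y ∈ K, f y ≤ f x) → 0 ≤ f h) ∨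
    (∀ f : E d →L[ℝ] ℝ, (∀ y ∈ K, f y ≤ f x) → f h ≤ 0)

/-- bodies with linearly independent belt directions -/
theorem belts (b : Fin k → E d) (hb : LinearIndependent ℝ b) (q : E d →ₗ[ℝ] E e)
    (hq : Function.Surjective q) (hker : ∀ x, q x = 0 ↔ x ∈ Submodule.span ℝ (Set.range b))
    {K : Set (E d)} (hK : Body K) (hbelt : ∀ i, Belt K (b i)) {M : ℕ} (hM : Cov M (q '' K)) :
    Cov (2 ^ k * M) K := by
  classical
  let sg : (Fin k → Bool) → E k := fun σ => WithLp.toLp 2 fun i => if σ i then (1:ℝ) else -1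
  have h1 := main (LinearMap.toContinuousLinearMap (lin b)) (LinearMap.toContinuousLinearMap q)
    (lin_inj b hb) hq (fun x hx => (lin_range b x).1 ((hker x).1 hx)) hK.1 hK.2.1 hK.2.2
    (univ.image sg) one_pos (by
      intro v hv
      refine ⟨sg fun i => decide (∀ f : E d →L[ℝ] ℝ, (∀ y ∈ K, f y ≤ f v) → 0 ≤ f (b i)),
        mem_image_of_mem _ (mem_univ _), fun f hf a ha => ?_⟩
      show f (lin b a) ≤ f (lin b _)
      rw [lin_apply, lin_apply, map_sum, map_sum]
      apply sum_le_sum
      intro i _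
      rw [map_smul, map_smul, smul_eq_mul, smul_eq_mul]
      have hai : |a i| ≤ 1 := by
        have := PiLp.norm_apply_le a i
        rw [Real.norm_eq_abs] at this
        linarith
      obtain ⟨hl, hr⟩ := abs_le.1 hai
      by_cases hcase : ∀ f : E d →L[ℝ] ℝ, (∀ y ∈ K, f y ≤ f v) → 0 ≤ f (b i)
      · have h2 : (sg fun i => decide (∀ f : E d →L[ℝ] ℝ, (∀ y ∈ K, f y ≤ f v) → 0 ≤ f (b i))) i = 1 := by
          simp only [sg]
          rw [if_pos (decide_eq_true hcase)]
        rw [h2]
        have := hcase f hf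
        nlinarith
      · have h2 : (sg fun i => decide (∀ f : E d →L[ℝ] ℝ, (∀ y ∈ K, f y ≤ f v) → 0 ≤ f (b i))) i = -1 := by
          simp only [sg]
          rw [if_neg (by simpa using hcase)]
        rw [h2]
        rcases hbelt i v hv with h | h
        · exact absurd h hcase
        · have := h f hf
          nlinarith) (M := M) hM
  refine h1.mono (Nat.mul_le_mul_right _ ?_)
  refine card_image_le.trans (le_of_eq ?_)
  rw [card_univ, Fintype.card_fun, Fintype.card_bool, Fintype.card_fin]

theorem belts_two (b : Fin k → E d) (hb : LinearIndependent ℝ b) {K : Set (E d)} (hK : Body K)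
    (hbelt : ∀ i, Belt K (b i)) (hdk : d ≤ k + 2) : Cov (2 ^ d) K := by
  have hkd := dim_le (lin b) (lin_inj b hb)
  obtain ⟨q, hq, hker⟩ := exists_q (e := d - k) (lin b) (lin_inj b hb) (by omega)
  have h1 := belts b hb q hq (fun x => (hker x).trans (lin_range b x).symm) hK hbelt
    (small (by omega) (body_image hK q hq))
  rwa [← pow_add, show k + (d - k) = d by omega] at h1

/-- a counterexample of least dimension has no belt direction -/
theorem belt_least {h : E d} (h0 : h ≠ 0) {K : Set (E d)} (hK : Body K) (hbelt : Belt K h)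
    (hall : ∀ m < d, ∀ K' : Set (E m), Body K' → Cov (2 ^ m) K') : Cov (2 ^ d) K := by
  have hb : LinearIndependent ℝ (fun _ : Fin 1 => h) := by
    rw [linearIndependent_unique_iff]; exact h0
  have hkd := dim_le (lin _) (lin_inj _ hb)
  obtain ⟨q, hq, hker⟩ := exists_q (e := d - 1) (lin _) (lin_inj _ hb) (by omega)
  have h1 := belts (fun _ : Fin 1 => h) hb q hq (fun x => (hker x).trans (lin_range _ x).symm) hK
    (fun _ => hbelt) (hall (d - 1) (by omega) _ (body_image hK q hq))
  rwa [← pow_add, show 1 + (d - 1) = d by omega] at h1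

end Pool.Agent.Helper272_RF
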